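import Mathlib
import Pool.Agent.Helper650.Alt5

set_option autoImplicit false

namespace Pool.Agent.Results.MP_d237fe_co.Sublinear

/-- A labelling of `K_n`: a bijection from the edge set of `K_n` onto `{1, …, C(n,2)}`
(the values of `label` outside the edge set play no role). -/
structure Labelling (n : ℕ) where
  label : Sym2 (Fin n) → ℕ
  bij : Set.BijOn label (⊤ : SimpleGraph (Fin n)).edgeSet (Set.Icc 1 (n.choose 2))

/-- The walk `w` of `K_n` is an increasing path: its vertices are distinct and the labels of its
edges, in the order in which they are traversed, are strictly increasing. -/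
def IsIncreasingPath {n : ℕ} (L : Labelling n) {u v : Fin n}
    (w : (⊤ : SimpleGraph (Fin n)).Walk u v) : Prop :=
  w.IsPath ∧ (w.edges.map L.label).Pairwise (· < ·)

/-- For every `c > 0` and every sufficiently large `n` there is a labelling of `K_n` in which
every increasing path has length (number of edges) less than `c * n`. -/
theorem result : ∀ c : ℝ, 0 < c → ∃ n₀ : ℕ, ∀ n ≥ n₀, ∃ L : Labelling n,
    ∀ (u v : Fin n) (w : (⊤ : SimpleGraph (Fin n)).Walk u v),
      IsIncreasingPath L w → (w.length : ℝ) < c * n := by
  intro c hc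
  obtain ⟨n₀, h⟩ := Helper650Alt.main c hc
  refine ⟨n₀, fun n hn => ?_⟩
  obtain ⟨lab, hbij, hlab⟩ := h n hn
  exact ⟨⟨lab, hbij⟩, fun u v w hw => hlab u v w hw.1 hw.2⟩

end Pool.Agent.Results.MP_d237fe_co.Sublinear
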